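import Pool.Agent.H943R6.MC.PLT
import Pool.Agent.H943R6.MC.HRD

/-!
# The gap version of the minimum circuit size problem relative to an oracle
-/

namespace Pool.Agent.H943R6.MC

open Pool.Agent.NPC Pool.Agent.H620R2.Gauge Pool.Agent.H622R2.Ckt Finset H568R2

/-- The language `L` solves the gap version of the minimum circuit size problem relative to `A`:
it contains every truth table `T` (of a function `F` of `n` variables, so `|T| = 2 ^ n`) that
belongs to a circuit of size at most `2 * ⌊sqrt |T|⌋`, and it contains no truth table `T` such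
that every circuit with this truth table has size greater than `|T| / (8 log |T|)` (and greater
than `2 * ⌊sqrt |T|⌋`, which is the smaller number if `n` is at least `16`). -/
def SolvesGap (A : Oracle) (L : Set (List Bool)) : Prop :=
  ∀ (n : ℕ) (F : List Bool → Bool),
    ((∃ C : Circuit, table n (C.eval A) = table n F ∧ C.size ≤ 2 * Nat.sqrt (2 ^ n)) →
      table n F ∈ L) ∧
    ((∀ C : Circuit, table n (C.eval A) = table n F →
        2 * Nat.sqrt (2 ^ n) < C.size ∧ 2 ^ n < 8 * n * C.size) →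
      table n F ∉ L)

/-- the length of the instances at scale `j` -/
def lenG (j : ℕ) : ℕ := 2 ^ (2 * j)

/-- the oracles for which the parameters are good -/
def EasyG (θ : Par) : Set Oracle :=
  {A | ∃ (V : List Bool → List Bool) (h : ℕ → List Bool) (L : Set (List Bool)),
    (∀ x, θ.M.out A x = some (V x)) ∧ (∀ n, (h n).length ≤ θ.p'.eval n) ∧ SolvesGap A L ∧
    ∀ x, x ∈ Lᶜ ↔ ∃ w : List Bool,
      w.length ≤ θ.p.eval (pairBits x (h x.length)).length ∧
      V (pairBits w (pairBits x (h x.length))) = [true]}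

/-- With advice `h` and the first `N` bits `a` of the oracle, the algorithm accepts the table `T`
(for some witness). -/
def AccG (θ : Par) (N j : ℕ) (h : List Bool) (T : Fin (2 ^ (2 * j)) → Bool) (a : Fin N → Bool) :
    Prop :=
  ∃ w : List Bool, w.length ≤ θ.p.eval (2 * lenG j + 1 + h.length) ∧
    θ.M.out (orc N a) (pairBits w (pairBits (List.ofFn T) h)) = some [true]

/-- The event: for some advice `h` no planted table is accepted, but at least `3/4` of all tables
are. -/
def EvG (θ : Par) (N j : ℕ) (hN : 2 ^ (2 ^ j + 2 * j + 1) ≤ N) (a : Fin N → Bool) : Prop :=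
  ∃ c ≤ θ.p'.eval (lenG j), ∃ h : List Bool, h.length = c ∧
    (∀ s < 2 ^ 2 ^ j, ¬ AccG θ N j h (fun i => a (pos N j hN s i)) a) ∧
    ∃ G : Finset (Fin (2 ^ (2 * j)) → Bool), (∀ T ∈ G, AccG θ N j h T a) ∧
      (3 / 4 : ℝ) * 2 ^ 2 ^ (2 * j) ≤ G.card

/-- a bound for `lenG j` in terms of `2 ^ j` -/
noncomputable def lenQ : Polynomial ℕ := Polynomial.X ^ 2

/-- a bound for the length of the advice in terms of `2 ^ j` -/
noncomputable def Par.Q1 (θ : Par) : Polynomial ℕ := θ.p'.comp lenQ

/-- a bound for the length of the inputs of the algorithm -/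
noncomputable def Par.Q3 (θ : Par) : Polynomial ℕ :=
  2 * θ.p.comp (2 * lenQ + 1 + Par.Q1 θ) + 1 + (2 * lenQ + 1 + Par.Q1 θ)

/-- a bound for the number of questions -/
noncomputable def Par.Q2 (θ : Par) : Polynomial ℕ := θ.M.p.comp (Par.Q3 θ)

theorem lenG_le (j : ℕ) : lenG j ≤ lenQ.eval (2 ^ j) := by
  simp only [lenQ, lenG, Polynomial.eval_pow, Polynomial.eval_X]
  rw [← pow_mul, mul_comm]

/-- every bit string of length `2 ^ n` is a truth table -/
theorem exists_table (n : ℕ) (T : List Bool) (h : T.length = 2 ^ n) :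
    ∃ F : List Bool → Bool, table n F = T := by
  classical
  refine ⟨fun x => T.getD ((cube n).idxOf x) false, ?_⟩
  unfold table
  apply List.ext_getElem
  · rw [List.length_map, length_cube, h]
  · intro i h1 h2
    rw [List.getElem_map, (PLT.cube_nodup n).idxOf_getElem, List.getD_eq_getElem _ _ h2]

theorem sqrt_two_pow (j : ℕ) : Nat.sqrt (2 ^ (2 * j)) = 2 ^ j := by
  rw [show 2 * j = j + j by omega, pow_add, Nat.sqrt_eq]

/-- the planted tables -/
theorem plantedG {A : Oracle} {L : Set (List Bool)} (hL : SolvesGap A L) {N j : ℕ} (hj : 8 ≤ j)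
    (hN : 2 ^ (2 ^ j + 2 * j + 1) ≤ N) (s : ℕ) :
    List.ofFn (fun i => pre N A (pos N j hN s i)) ∈ L := by
  obtain ⟨n, s', C, -, hs, hy⟩ := planted (fun _ => True) (fun _ _ => trivial) A hN s
  obtain ⟨h1, h2⟩ := HRD.pairBits_inj hy
  have h3 : sz j = s' := by simpa using congrArg List.length h2
  have h4 : 2 ^ (2 * j) = 2 ^ n := by
    have := congrArg List.length h1
    rwa [List.length_ofFn, table, List.length_map, length_cube] at this
  have h5 : 2 * j = n := Nat.pow_right_injective (le_refl 2) h4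
  subst h5
  rw [h1]
  refine (hL (2 * j) (C.eval A)).1 ⟨C, rfl, ?_⟩
  rw [sqrt_two_pow]
  have h6 := HRD.two_pow_ge hj
  unfold sz at h3
  omega

/-- the number of small circuits -/
theorem nC_leG {j : ℕ} (hj : 8 ≤ j) :
    4 * nC (2 * j) (2 ^ (2 * j) / (16 * j)) ≤ 2 ^ 2 ^ (2 * j) := by
  have h := HRD.two_pow_ge hj
  set k := 2 ^ (2 * j) / (16 * j) with hk
  have h0 : 16 * j * k ≤ 2 ^ (2 * j) := Nat.mul_div_le _ _
  have hsq : 2 ^ (2 * j) = 2 ^ j * 2 ^ j := by rw [← pow_add]; congr 1; omega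
  have h256 : 256 ≤ 2 ^ j := by
    calc 256 = 2 ^ 8 := by norm_num
      _ ≤ 2 ^ j := Nat.pow_le_pow_right (by norm_num) hj
  have hbig : 256 * 2 ^ j ≤ 2 ^ (2 * j) := by rw [hsq]; exact Nat.mul_le_mul_right _ h256
  have h1 : 2 * j + k + 8 ≤ 2 ^ (2 * j) := by
    have h2 : 16 * k ≤ 2 ^ (2 * j) := by
      have : 16 * k ≤ 16 * j * k := by nlinarith
      omega
    omega
  have h4 : 2 * j * (4 * k + 4) + 2 ≤ 2 ^ (2 * j) := by
    have e : 2 * j * (4 * k + 4) = 8 * j * k + 8 * j := by ring
    have e2 : 16 * j * k = 2 * (8 * j * k) := by ring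
    rw [e]
    omega
  unfold nC
  calc 4 * (2 * j + k + 8) ^ (4 * k + 4) ≤ 4 * (2 ^ (2 * j)) ^ (4 * k + 4) :=
        Nat.mul_le_mul_left _ (Nat.pow_le_pow_left h1 _)
    _ = 2 ^ (2 * j * (4 * k + 4) + 2) := by rw [← pow_mul, pow_add]; ring
    _ ≤ _ := Nat.pow_le_pow_right (by norm_num) h4

open Classical in
/-- at most a quarter of the tables is in a language which solves the gap problem -/
theorem few_easyG {A : Oracle} {L : Set (List Bool)} (hL : SolvesGap A L) {j : ℕ} (hj : 8 ≤ j) :
    ((univ.filter (fun T : Fin (2 ^ (2 * j)) → Bool => List.ofFn T ∈ L)).card : ℝ) ≤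
      (1 / 4 : ℝ) * 2 ^ 2 ^ (2 * j) := by
  set k := 2 ^ (2 * j) / (16 * j) with hk
  obtain ⟨F, hF1, hF2⟩ := exists_circuits (2 * j) k
  have h32 : 2 * 2 ^ j ≤ k := by
    rw [hk, Nat.le_div_iff_mul_le (by omega)]
    have hsq : 2 ^ (2 * j) = 2 ^ j * 2 ^ j := by rw [← pow_add]; congr 1; omega
    have h32 : ∀ i, 8 ≤ i → 32 * i ≤ 2 ^ i := by
      intro i hi
      induction i, hi using Nat.le_induction with
      | base => norm_num
      | succ i hi ih => rw [pow_succ]; omega
    rw [hsq]
    calc 2 * 2 ^ j * (16 * j) = 2 ^ j * (32 * j) := by ring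
      _ ≤ 2 ^ j * 2 ^ j := Nat.mul_le_mul_left _ (h32 j hj)
  have hsub : univ.filter (fun T : Fin (2 ^ (2 * j)) → Bool => List.ofFn T ∈ L) ⊆
      F.image (fun C (i : Fin (2 ^ (2 * j))) => (table (2 * j) (C.eval A)).getD i.1 false) := by
    intro T hT
    rw [mem_filter] at hT
    obtain ⟨G, hG⟩ := exists_table (2 * j) (List.ofFn T) (List.length_ofFn)
    have h1 := (hL (2 * j) G).2
    rw [hG] at h1
    have h2 : ¬ ∀ C : Circuit, table (2 * j) (C.eval A) = List.ofFn T →
        2 * Nat.sqrt (2 ^ (2 * j)) < C.size ∧ 2 ^ (2 * j) < 8 * (2 * j) * C.size :=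
      fun hc => h1 hc hT.2
    push Not at h2
    obtain ⟨C, hC1, hC2⟩ := h2
    rw [sqrt_two_pow] at hC2
    have hCk : C.size ≤ k := by
      by_cases h3 : 2 * 2 ^ j < C.size
      · have h4 := hC2 h3
        rw [hk, Nat.le_div_iff_mul_le (by omega)]
        calc C.size * (16 * j) = 8 * (2 * j) * C.size := by ring
          _ ≤ _ := h4
      · omega
    obtain ⟨C', hC', -, he⟩ := hF2 C hCk
    refine mem_image.2 ⟨C', hC', ?_⟩
    have h6 : table (2 * j) (C'.eval A) = List.ofFn T := by
      rw [← hC1]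
      unfold table
      apply List.map_congr_left
      intro x hx
      exact he A x (length_cube_mem _ x hx)
    funext i
    rw [h6, List.getD_eq_getElem _ _ (by rw [List.length_ofFn]; exact i.2), List.getElem_ofFn]
  have h1 : 4 * (univ.filter (fun T : Fin (2 ^ (2 * j)) → Bool => List.ofFn T ∈ L)).card ≤
      2 ^ 2 ^ (2 * j) := by
    refine le_trans ?_ (nC_leG hj)
    exact Nat.mul_le_mul_left _ ((card_le_card hsub).trans (card_image_le.trans hF1))
  have h2 : (4 : ℝ) * ((univ.filter (fun T : Fin (2 ^ (2 * j)) → Bool =>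
      List.ofFn T ∈ L)).card : ℝ) ≤ 2 ^ 2 ^ (2 * j) := by exact_mod_cast h1
  linarith

end Pool.Agent.H943R6.MC
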