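import Pool.Agent.H943R6.MC.CMB
import Pool.Agent.H943R6.MC.PLT
import Pool.Agent.H943R6.MG.Base
import Pool.Agent.H620R2.Gauge.Event
import Pool.Agent.H620R2.Gauge.A1

/-!
# The probability of the event (helper228, adapted to the gap problem by helper943)
-/

namespace Pool.Agent.H943R6.MC

open Pool.Agent.NPC Pool.Agent.H620R2.Gauge Pool.Agent.H622R2.Ckt Finset H568R2

namespace EVG

/-- the questions of the algorithm on one input, as positions -/
theorem acc_local (θ : Par) {N j : ℕ} {h : List Bool} (hh : h.length ≤ θ.p'.eval (lenG j))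
    (T : Fin (2 ^ (2 * j)) → Bool) (a : Fin N → Bool) (hacc : AccG θ N j h T a) :
    ∃ Q : Finset (Fin N), Q.card ≤ (Par.Q2 θ).eval (2 ^ j) + 1 ∧
      ∀ a' : Fin N → Bool, (∀ x ∈ Q, a' x = a x) → AccG θ N j h T a' := by
  classical
  obtain ⟨w, hw, hout⟩ := hacc
  obtain ⟨qb, hqb⟩ := θ.M.out_local
  obtain ⟨Q, hQ1, -, hQ3⟩ := hqb (orc N a) (pairBits w (pairBits (List.ofFn T) h))
  refine ⟨univ.filter (fun x : Fin N => str x ∈ Q), ?_, ?_⟩
  · have h1 : (univ.filter (fun x : Fin N => str x ∈ Q)).card ≤ Q.card := by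
      refine card_le_card_of_injOn (fun x : Fin N => str x) ?_ ?_
      · intro x hx
        exact (mem_filter.1 hx).2
      · intro x _ y _ hxy
        have := congrArg idx hxy
        rw [idx_str, idx_str] at this
        exact Fin.ext this
    have h2 : (pairBits w (pairBits (List.ofFn T) h)).length ≤ (Par.Q3 θ).eval (2 ^ j) := by
      have e1 : (Par.Q3 θ).eval (2 ^ j) =
          2 * θ.p.eval (2 * lenQ.eval (2 ^ j) + 1 + (Par.Q1 θ).eval (2 ^ j)) + 1 +
            (2 * lenQ.eval (2 ^ j) + 1 + (Par.Q1 θ).eval (2 ^ j)) := by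
        simp [Par.Q3, Polynomial.eval_comp]
      have e2 : (Par.Q1 θ).eval (2 ^ j) = θ.p'.eval (lenQ.eval (2 ^ j)) := by
        simp [Par.Q1, Polynomial.eval_comp]
      have e3 : θ.p'.eval (lenG j) ≤ θ.p'.eval (lenQ.eval (2 ^ j)) := eval_mono _ (lenG_le j)
      have e4 := lenG_le j
      have e5 : θ.p.eval (2 * lenG j + 1 + h.length) ≤
          θ.p.eval (2 * lenQ.eval (2 ^ j) + 1 + (Par.Q1 θ).eval (2 ^ j)) :=
        eval_mono _ (by omega)
      have e6 : lenG j = 2 ^ (2 * j) := rfl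
      rw [e1, length_pairBits, length_pairBits, List.length_ofFn]
      omega
    have h3 : θ.M.p.eval (pairBits w (pairBits (List.ofFn T) h)).length ≤
        (Par.Q2 θ).eval (2 ^ j) := by
      have e1 : (Par.Q2 θ).eval (2 ^ j) = θ.M.p.eval ((Par.Q3 θ).eval (2 ^ j)) := by
        simp [Par.Q2, Polynomial.eval_comp]
      rw [e1]
      exact eval_mono _ h2
    omega
  · intro a' ha'
    refine ⟨w, hw, ?_⟩
    rw [← hout]
    refine hQ3 (orc N a') ?_
    intro q hq
    unfold orc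
    split_ifs with hlt
    · exact ha' ⟨idx q, hlt⟩ (mem_filter.2
        ⟨mem_univ _, by show str (idx q) ∈ Q; rw [str_idx]; exact hq⟩)
    · rfl

end EVG

open Classical in
/-- the bound -/
theorem evG_bound (θ : Par) {N j : ℕ} (hN : 2 ^ (2 ^ j + 2 * j + 1) ≤ N) :
    Ex unif (fun a : Fin N → Bool => if EvG θ N j hN a then (1 : ℝ) else 0) ≤
      2 ^ ((Par.Q1 θ).eval (2 ^ j) + 1) * (2 * ((Par.Q2 θ).eval (2 ^ j) + 1) *
        (5 / 8) ^ (2 ^ 2 ^ j / (2 * ((Par.Q2 θ).eval (2 ^ j) + 1)))) := by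
  set B : ℝ := 2 * ((Par.Q2 θ).eval (2 ^ j) + 1) *
        (5 / 8) ^ (2 ^ 2 ^ j / (2 * ((Par.Q2 θ).eval (2 ^ j) + 1))) with hB
  have hB0 : 0 ≤ B := by positivity
  set C : ℕ := θ.p'.eval (lenG j) with hC
  have hCle : C ≤ (Par.Q1 θ).eval (2 ^ j) := by
    have e2 : (Par.Q1 θ).eval (2 ^ j) = θ.p'.eval (lenQ.eval (2 ^ j)) := by
      simp [Par.Q1, Polynomial.eval_comp]
    rw [e2]
    exact eval_mono _ (lenG_le j)
  set H : Finset (List Bool) := (range (C + 1)).biUnion strsOf with hH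
  have hHlen : ∀ h ∈ H, h.length ≤ C := by
    intro h hh
    obtain ⟨c, hc, hhc⟩ := mem_biUnion.1 hh
    obtain ⟨i, _, rfl⟩ := mem_image.1 hhc
    rw [length_bitsOf]
    have := mem_range.1 hc
    omega
  have hHcard : (H.card : ℝ) ≤ 2 ^ ((Par.Q1 θ).eval (2 ^ j) + 1) := by
    have h1 : H.card ≤ 2 ^ (C + 1) := by
      refine card_biUnion_le.trans ?_
      refine (sum_le_sum (fun c _ => card_strsOf c)).trans ?_
      have geo : ∀ n : ℕ, ∑ c ∈ range n, 2 ^ c + 1 = 2 ^ n := by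
        intro n
        induction n with
        | zero => simp
        | succ n ih => rw [sum_range_succ, pow_succ]; omega
      have := geo (C + 1)
      omega
    have h2 : 2 ^ (C + 1) ≤ 2 ^ ((Par.Q1 θ).eval (2 ^ j) + 1) :=
      Nat.pow_le_pow_right (by norm_num) (by omega)
    exact_mod_cast h1.trans h2
  -- the bound for one advice
  have hone : ∀ h ∈ H, Ex unif (fun a : Fin N → Bool =>
      if (∀ s < 2 ^ 2 ^ j, ¬ AccG θ N j h (fun i => a (pos N j hN s i)) a) ∧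
        (∃ G : Finset (Fin (2 ^ (2 * j)) → Bool), (∀ T ∈ G, AccG θ N j h T a) ∧
          (3 / 4 : ℝ) * 2 ^ 2 ^ (2 * j) ≤ G.card)
      then (1 : ℝ) else 0) ≤ B := by
    intro h hh
    have h1 := cmb (I := Fin N) (m := 2 ^ (2 * j)) (q := (Par.Q2 θ).eval (2 ^ j) + 1)
      (K := 2 ^ 2 ^ j) (by omega) (pos N j hN) (fun s hs s' hs' i i' he => pos_inj hN hs hs' he)
      (AccG θ N j h) (fun T a hacc => EVG.acc_local θ (hHlen h hh) T a hacc)
    refine h1.trans (le_of_eq ?_)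
    rw [hB]
    push_cast
    rfl
  have hU : Ex unif (fun a : Fin N → Bool => if EvG θ N j hN a then (1 : ℝ) else 0) ≤
      ∑ h ∈ H, Ex unif (fun a : Fin N → Bool =>
      if (∀ s < 2 ^ 2 ^ j, ¬ AccG θ N j h (fun i => a (pos N j hN s i)) a) ∧
        (∃ G : Finset (Fin (2 ^ (2 * j)) → Bool), (∀ T ∈ G, AccG θ N j h T a) ∧
          (3 / 4 : ℝ) * 2 ^ 2 ^ (2 * j) ≤ G.card)
      then (1 : ℝ) else 0) := by
    rw [← Ex_sum]
    apply Ex_mono unif_nonneg
    intro a
    by_cases hE : EvG θ N j hN a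
    · rw [if_pos hE]
      obtain ⟨c, hc, h, hhl, h1, h2⟩ := hE
      have hhH : h ∈ H := mem_biUnion.2 ⟨c, mem_range.2 (Nat.lt_succ_of_le hc), by
        rw [← hhl]; exact mem_strsOf h⟩
      refine le_trans ?_ (single_le_sum (f := fun h =>
        if (∀ s < 2 ^ 2 ^ j, ¬ AccG θ N j h (fun i => a (pos N j hN s i)) a) ∧
        (∃ G : Finset (Fin (2 ^ (2 * j)) → Bool), (∀ T ∈ G, AccG θ N j h T a) ∧
          (3 / 4 : ℝ) * 2 ^ 2 ^ (2 * j) ≤ G.card)
        then (1 : ℝ) else 0) (fun h _ => by positivity) hhH)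
      show (1 : ℝ) ≤ ite _ _ _
      rw [if_pos ⟨h1, h2⟩]
    · rw [if_neg hE]
      exact sum_nonneg fun h _ => by positivity
  refine hU.trans ((sum_le_sum hone).trans ?_)
  rw [sum_const, nsmul_eq_mul]
  exact mul_le_mul_of_nonneg_right hHcard hB0

end Pool.Agent.H943R6.MC
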