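import Pool.Agent.H943R6.MG.Base
import Pool.Agent.H943R6.MC.Final
import Pool.Agent.H620R2.Gauge.U2

/-!
# The gap problem: a solution in `NP` relative to the oracle (helper943)
-/

namespace Pool.Agent.H943R6.MC

open Pool.Agent.NPC Pool.Agent.H620R2.Gauge Pool.Agent.H622R2.Ckt Pool.Agent.H622R2

/-- `NP` relative to an oracle is closed under preimages of polynomial-time functions. -/
theorem isNP_preimage {A : Oracle} {L : Set (List Bool)} (hL : IsNP A L)
    {g : List Bool → List Bool} (hg : Poly g) : IsNP A {x | g x ∈ L} := by
  obtain ⟨V, p, hV, h⟩ := hL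
  have h1 : Poly (fun z : List Bool => (unpair z).1) := Poly.fst poly_unpair
  have h2 : Poly (fun z : List Bool => (unpair z).2) := Poly.snd poly_unpair
  have h3 : Poly (fun z : List Bool => g (unpair z).2) := hg.comp h2
  have h4 : UPoly (fun z : List Bool => p.eval (g (unpair z).2).length) :=
    UPoly.eval (UPoly.length h3) p
  have h5 : Poly (fun z : List Bool =>
      ((unpair z).1.zip (List.replicate (p.eval (g (unpair z).2).length) ())).map
        (fun u => u.1)) :=
    NPC.Poly.map (F := fun _ u => u.1) (Poly.zip h1 h4) (Poly.fst (Poly.snd Poly.id))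
  have h6 : Poly (fun z : List Bool =>
      pairBits ((unpair z).1.take (p.eval (g (unpair z).2).length)) (g (unpair z).2)) :=
    (poly_pairBits h5 h3).congr fun z => by rw [U2.map_fst_zip_replicate]
  obtain ⟨q, hq⟩ := hg.sz_le
  refine ⟨fun z => V (pairBits ((unpair z).1.take (p.eval (g (unpair z).2).length))
    (g (unpair z).2)), (p.comp q).comp (Polynomial.C 4 * Polynomial.X + Polynomial.C 1),
    (show IsFP A (fun z => V ((fun z : List Bool =>
      pairBits ((unpair z).1.take (p.eval (g (unpair z).2).length)) (g (unpair z).2)) z)) from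
      hV.comp (IsFP.of_poly h6)), fun x => ?_⟩
  rw [Set.mem_ofPred_eq, h]
  constructor
  · rintro ⟨w, hw, hVw⟩
    refine ⟨w, ?_, ?_⟩
    · refine A2.sz_eval_le (hw.trans ?_)
      rw [Polynomial.eval_comp]
      apply eval_mono
      exact (length_lt_sz _).le.trans (hq x)
    · simp only [unpair_pairBits]
      rwa [List.take_of_length_le hw]
  · rintro ⟨w, -, hVw⟩
    simp only [unpair_pairBits] at hVw
    exact ⟨_, List.length_take_le _ _, hVw⟩

/-- the tables of the circuits of size at most twice the root of the length -/
def LG (A : Oracle) : Set (List Bool) :=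
  {T | ∃ (n : ℕ) (C : Circuit), C.size ≤ 2 * Nat.sqrt (2 ^ n) ∧ T = table n (C.eval A)}

theorem length_table (n : ℕ) (F : List Bool → Bool) : (table n F).length = 2 ^ n := by
  unfold table; rw [List.length_map, length_cube]

theorem solvesGap_LG (A : Oracle) : SolvesGap A (LG A) := by
  intro n F
  refine ⟨?_, ?_⟩
  · rintro ⟨C, h1, h2⟩
    exact ⟨n, C, h2, h1.symm⟩
  · rintro h ⟨n', C, h1, h2⟩
    have h3 : 2 ^ n = 2 ^ n' := by
      have := congrArg List.length h2
      rwa [length_table, length_table] at this
    have h5 : n = n' := Nat.pow_right_injective (le_refl 2) h3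
    subst h5
    have := (h C h2.symm).1
    omega

theorem LG_eq (A : Oracle) : LG A =
    {T | pairBits T (List.replicate (2 * Nat.sqrt T.length) true) ∈ MCSP A} := by
  ext T
  constructor
  · rintro ⟨n, C, h1, rfl⟩
    refine ⟨n, 2 * Nat.sqrt (2 ^ n), C, trivial, h1, ?_⟩
    rw [length_table]
  · rintro ⟨n, s, C, -, h1, h2⟩
    obtain ⟨h3, h4⟩ := HRD.pairBits_inj h2
    have h5 : 2 * Nat.sqrt T.length = s := by simpa using congrArg List.length h4
    refine ⟨n, C, ?_, h3⟩
    rw [h3, length_table] at h5
    omega

theorem poly_sqrt : UPoly (fun T : List Bool => Nat.sqrt T.length) := by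
  have hl : UPoly (fun T : List Bool => T.length) := UPoly.length Poly.id
  have h1 : Poly (fun T : List Bool =>
      (List.range T.length).filter (fun k => decide ((k + 1) * (k + 1) ≤ T.length))) :=
    Poly.filter (p := fun T k => decide ((k + 1) * (k + 1) ≤ T.length)) hl.range
      (Poly.decide_le (Poly.mul (Poly.add (Poly.snd Poly.id) (NPC.Poly.const 1))
        (Poly.add (Poly.snd Poly.id) (NPC.Poly.const 1))) (hl.toPoly.comp (Poly.fst Poly.id)))
  have h2 : ∀ n : ℕ, ((List.range n).filter
      (fun k => decide ((k + 1) * (k + 1) ≤ n))).length = Nat.sqrt n := by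
    intro n
    have h3 : (List.range n).filter (fun k => decide ((k + 1) * (k + 1) ≤ n)) =
        List.range (Nat.sqrt n) := by
      have h4 : (List.range n).filter (fun k => decide ((k + 1) * (k + 1) ≤ n)) =
          (List.range n).filter (fun k => decide (k < Nat.sqrt n)) := by
        apply List.filter_congr
        intro k _
        rw [decide_eq_decide, ← Nat.le_sqrt, Nat.succ_le_iff]
      rw [h4]
      obtain ⟨d, hd⟩ := Nat.exists_eq_add_of_le (Nat.sqrt_le_self n)
      generalize Nat.sqrt n = m at *
      subst hd
      rw [List.range_add, List.filter_append]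
      have h5 : (List.range m).filter (fun k => decide (k < m)) = List.range m := by
        rw [List.filter_eq_self]
        intro k hk
        simpa using hk
      have h6 : ((List.range d).map (fun x => m + x)).filter (fun k => decide (k < m)) = [] := by
        rw [List.filter_eq_nil_iff]
        intro k hk
        simp at hk ⊢
        omega
      rw [h5, h6, List.append_nil]
    rw [h3, List.length_range]
  exact (UPoly.length h1).congr fun T => by beta_reduce; rw [h2]

theorem isNP_LG (A : Oracle) : IsNP A (LG A) := by
  rw [LG_eq]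
  refine isNP_preimage (isNP_mcsp A) (g := fun T =>
    pairBits T (List.replicate (2 * Nat.sqrt T.length) true)) ?_
  refine poly_pairBits Poly.id ?_
  have h1 : UPoly (fun T : List Bool => 2 * Nat.sqrt T.length) :=
    UPoly.mul (UPoly.const 2) poly_sqrt
  refine (NPC.Poly.map (F := fun _ _ => true) h1 (NPC.Poly.const true)).congr fun T => ?_
  simp

end Pool.Agent.H943R6.MC
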