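import Pool.Agent.H943R6.MG.EVG
import Pool.Agent.H943R6.MG.EVH
import Pool.Agent.H943R6.MG.Mem

/-!
# The gauge threshold of the gap version of the minimum circuit size problem (helper943)
-/

namespace Pool.Agent.H943R6.MC

open Pool.Agent.NPC Pool.Agent.H620R2.Gauge Pool.Agent.H622R2.Ckt Finset H568R2

theorem mem_easyG {A : Oracle}
    (h : ∃ L, SolvesGap A L ∧ WithAdvice (IsNP A) Lᶜ) : ∃ θ, A ∈ EasyG θ := by
  obtain ⟨L, hL, L', h, p', ⟨V, p, ⟨M, hM⟩, hL'⟩, hh, hx⟩ := h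
  exact ⟨⟨M, p, 1, p'⟩, V, h, L, hM, hh, hL, fun x => (hx x).trans (hL' _)⟩

theorem nullG {f : ℕ → ℝ} (hf : Cond f) (O : Set Oracle)
    (hO : ∀ A ∈ O, ∃ L, SolvesGap A L ∧ WithAdvice (IsNP A) Lᶜ) : Null f O := by
  refine (null_iUnion (f := f) EasyG fun θ => ?_).mono fun A hA => ?_
  · intro δ hδ
    obtain ⟨Q, hQ⟩ := evG_of_easy θ
    obtain ⟨j, hj, N, hN, hb⟩ := asy (Par.Q1 θ) (Par.Q2 θ) (Q + 3 * Polynomial.X) hf δ hδ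
    have hQe : (Q + 3 * Polynomial.X).eval (2 ^ j) = Q.eval (2 ^ j) + 3 * 2 ^ j := by simp
    rw [hQe] at hN
    have hj2 : j < 2 ^ j := Nat.lt_two_pow_self
    have hN1 : 2 ^ (2 ^ j + 2 * j + 1) ≤ N :=
      le_trans (Nat.pow_le_pow_right (by norm_num) (by omega)) hN
    have hN2 : 2 ^ (Q.eval (2 ^ j) + 1) ≤ N :=
      le_trans (Nat.pow_le_pow_right (by norm_num) (by omega)) hN
    refine cover_of_event (EvG θ N j hN1) (EasyG θ)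
      (fun A hA => hQ A hA j hj N hN1 hN2) f δ ?_
    exact (mul_le_mul_of_nonneg_right (evG_bound θ hN1) (by positivity)).trans hb
  · obtain ⟨θ, hθ⟩ := mem_easyG (hO A hA)
    exact Set.mem_iUnion.2 ⟨θ, hθ⟩

theorem main_gap (f : ℕ → ℝ) :
    (∀ O : Set Oracle,
      ((∀ A : Oracle, (∀ L, IsPSPACE A L → Reduces L {x | A x = true}) → A ∈ O) ∨
        (∀ A : Oracle, (∀ L, IsEXP A L ∨ IsPSPACE A L → IsZPP A L) →
          (∃ L, IsZPP A L ∧ ¬ IsP A L) → A ∈ O)) →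
      (∀ A ∈ O, ∃ L, SolvesGap A L ∧ WithAdvice (IsNP A) Lᶜ) →
      (Null f O ↔
        ∀ ε : ℝ, 0 < ε → ∃ᶠ N : ℕ in Filter.atTop, f N ≤ 2 ^ (Real.logb 2 N) ^ ε)) ∧
    (Null f {A : Oracle | ∃ L, SolvesGap A L ∧ IsP A L} ↔
      ∀ ε : ℝ, 0 < ε → ∃ᶠ N : ℕ in Filter.atTop, f N ≤ 2 ^ (Real.logb 2 N) ^ ε) ∧
    (Null f {A : Oracle | ∃ L, SolvesGap A L ∧ WithAdvice (IsNP A) L ∧
        WithAdvice (IsNP A) Lᶜ} ↔
      ∀ ε : ℝ, 0 < ε → ∃ᶠ N : ℕ in Filter.atTop, f N ≤ 2 ^ (Real.logb 2 N) ^ ε) ∧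
    (Null f {A : Oracle | (∃ L, SolvesGap A L ∧ IsZPP A L) ∧ ∃ L, IsNP A L ∧ ¬ IsP A L} ↔
      ∀ ε : ℝ, 0 < ε → ∃ᶠ N : ℕ in Filter.atTop, f N ≤ 2 ^ (Real.logb 2 N) ^ ε) := by
  have key : ∀ O : Set Oracle,
      ((∀ A : Oracle, (∀ L, IsPSPACE A L → Reduces L {x | A x = true}) → A ∈ O) ∨
        (∀ A : Oracle, (∀ L, IsEXP A L ∨ IsPSPACE A L → IsZPP A L) →
          (∃ L, IsZPP A L ∧ ¬ IsP A L) → A ∈ O)) →
      (∀ A ∈ O, ∃ L, SolvesGap A L ∧ WithAdvice (IsNP A) Lᶜ) →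
      (Null f O ↔
        ∀ ε : ℝ, 0 < ε → ∃ᶠ N : ℕ in Filter.atTop, f N ≤ 2 ^ (Real.logb 2 N) ^ ε) := by
    intro O h1 h2
    constructor
    · intro hn
      by_contra hcon
      rcases h1 with h1 | h1
      · push Not at hcon
        obtain ⟨ε, hε, hcon⟩ := hcon
        exact not_null f ε hε (hcon.mono fun N h => h) O h1 hn
      · exact not_nullT (f := f) hcon O h1 hn
    · intro hf
      exact nullG hf O h2
  have hP : ∀ A : Oracle, (∀ L, IsPSPACE A L → Reduces L {x | A x = true}) → IsP A (LG A) :=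
    fun A hA => isP_of_reduces (hA _ (isNP_LG A).isPSPACE)
  refine ⟨key, key _ (Or.inl ?_) ?_, key _ (Or.inl ?_) ?_, key _ (Or.inr ?_) ?_⟩
  · intro A hA
    exact ⟨LG A, solvesGap_LG A, hP A hA⟩
  · rintro A ⟨L, hL, h⟩
    exact ⟨L, hL, (IsP.compl h).isNP.withAdvice⟩
  · intro A hA
    exact ⟨LG A, solvesGap_LG A, (hP A hA).isNP.withAdvice,
      (IsP.compl (hP A hA)).isNP.withAdvice⟩
  · rintro A ⟨L, hL, -, h⟩
    exact ⟨L, hL, h⟩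
  · rintro A h1 ⟨L, h2, h3⟩
    exact ⟨⟨LG A, solvesGap_LG A, h1 _ (Or.inr (isNP_LG A).isPSPACE)⟩, L, h2.isNP, h3⟩
  · rintro A ⟨⟨L, hL, h1⟩, _⟩
    exact ⟨L, hL, (isZPP_compl h1).isNP.withAdvice⟩

end Pool.Agent.H943R6.MC
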